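import Pool.Agent.helper91.SI.Spec4

set_option autoImplicit false

namespace Pool.Agent.helper91.SI

open Pool.Agent.helper20.IG (IsIndepDom IsISet iGraph)

theorem T6H_s1 {V : Type} [DecidableEq V] (R : Finset V) (x y z w : V) (hx : x ∉ R) (hy : x ≠ y)
    (hz : x ≠ z) : insert w ((R ∪ {x, y, z}).erase x) = R ∪ {w, y, z} := by
  have h1 : (R ∪ {x, y, z}).erase x = R ∪ {y, z} := by
    rw [Finset.erase_union_distrib, Finset.erase_eq_of_notMem hx, Finset.erase_insert]
    simp only [Finset.mem_insert, Finset.mem_singleton, not_or]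
    exact ⟨hy, hz⟩
  rw [h1, Finset.insert_eq, ← Finset.union_assoc, Finset.union_comm {w} R, Finset.union_assoc]
  rfl

theorem T6H_s2 {V : Type} [DecidableEq V] (R : Finset V) (x y z w : V) (hx : x ∉ R) (hy : x ≠ y)
    (hz : x ≠ z) : insert w ((R ∪ {y, z, x}).erase x) = R ∪ {y, z, w} := by
  have h1 : ∀ t : V, ({y, z, t} : Finset V) = {t, y, z} := by
    intro t
    ext u
    simp only [Finset.mem_insert, Finset.mem_singleton]
    constructor
    · rintro (h | h | h)
      · exact Or.inr (Or.inl h)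
      · exact Or.inr (Or.inr h)
      · exact Or.inl h
    · rintro (h | h | h)
      · exact Or.inr (Or.inr h)
      · exact Or.inl h
      · exact Or.inr (Or.inl h)
  rw [h1, h1]
  exact T6H_s1 R x y z w hx hy hz

theorem T6H_n {V : Type} [DecidableEq V] (R : Finset V) (x y z w : V) (hw : w ∉ R) (hx : w ≠ x)
    (hy : w ≠ y) (hz : w ≠ z) : w ∉ R ∪ {x, y, z} := by
  simp only [Finset.mem_union, Finset.mem_insert, Finset.mem_singleton, not_or]
  exact ⟨hw, hx, hy, hz⟩

theorem T6H (hCFL : CFL_stmt) (hI2W : I2W_stmt) (hINV : INV_stmt) (hT6S : T6S_stmt) :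
    T6H_stmt := by
  intro V _ G S s v hNT hNC hNCi hW
  have hinv := hINV V G S s v hNT hNC hNCi hW
  have hne := (hI2W V G S s v hNT hNCi hW).1
  obtain ⟨R, hnod, hnR, h0, h1, h2, h3, h4, h5⟩ := hT6S V G S s v hW hne hinv
  obtain ⟨hIS, -, hst⟩ := hW
  have aa := (hst 0).2.2.1
  have bb := (hst 1).2.2.1
  have cc := (hst 2).2.2.1
  clear hinv hne hst hINV hI2W hT6S
  generalize s 0 = a at *
  generalize v 0 = a' at *
  generalize s 1 = b at *
  generalize v 1 = b' at *
  generalize s 2 = c at *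
  generalize v 2 = c' at *
  simp only [List.nodup_cons, List.mem_cons, List.not_mem_nil, or_false, not_or,
    not_false_eq_true, List.nodup_nil, and_true] at hnod
  obtain ⟨⟨naa, nab, nab', nac, nac'⟩, ⟨na'b, na'b', na'c, na'c'⟩, ⟨nbb, nbc, nbc'⟩,
    ⟨nb'c, nb'c'⟩, ncc⟩ := hnod
  have Ra : a ∉ R := hnR a (by simp)
  have Ra' : a' ∉ R := hnR a' (by simp)
  have Rb : b ∉ R := hnR b (by simp)
  have Rb' : b' ∉ R := hnR b' (by simp)
  have Rc : c ∉ R := hnR c (by simp)
  have Rc' : c' ∉ R := hnR c' (by simp)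
  have i0 := (hIS 0).1
  have i1 := (hIS 1).1
  have i2 := (hIS 2).1
  have i3 := (hIS 3).1
  have i4 := (hIS 4).1
  have i5 := (hIS 5).1
  rw [h0] at i0
  rw [h1] at i1
  rw [h2] at i2
  rw [h3] at i3
  rw [h4] at i4
  rw [h5] at i5
  have ac : ¬ G.Adj a c := i0.1 a (by simp) c (by simp)
  have ab : ¬ G.Adj a b := i0.1 a (by simp) b (by simp)
  have a'c' : ¬ G.Adj a' c' := i3.1 a' (by simp) c' (by simp)
  have a'b' : ¬ G.Adj a' b' := i3.1 a' (by simp) b' (by simp)
  have a'b : ¬ G.Adj a' b := i1.1 a' (by simp) b (by simp)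
  have a'c : ¬ G.Adj a' c := i1.1 a' (by simp) c (by simp)
  have ab' : ¬ G.Adj a b' := i4.1 a (by simp) b' (by simp)
  have ac' : ¬ G.Adj a c' := i4.1 a (by simp) c' (by simp)
  have aR : ∀ r ∈ R, ¬ G.Adj a r := fun r hr => i0.1 a (by simp) r (by simp [hr])
  have a'R : ∀ r ∈ R, ¬ G.Adj a' r := fun r hr => i3.1 a' (by simp) r (by simp [hr])
  have sl1 : Slide G (S 0) a a' := by
    refine ⟨hIS 0, ?_, ?_, aa, ?_⟩
    · rw [h0]
      simp
    · rw [h0]
      exact T6H_n R a b c a' Ra' (Ne.symm naa) na'b na'c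
    · rw [h0, T6H_s1 R a b c a' Ra nab nac, ← h1]
      exact hIS 1
  have sl2 : Slide G (S 0) c c' := by
    refine ⟨hIS 0, ?_, ?_, cc, ?_⟩
    · rw [h0]
      simp
    · rw [h0]
      exact T6H_n R a b c c' Rc' (Ne.symm nac') (Ne.symm nbc') (Ne.symm ncc)
    · rw [h0, T6H_s2 R c a b c' Rc (Ne.symm nac) (Ne.symm nbc), ← h5]
      exact hIS 5
  have sl3 : Slide G (S 3) a' a := by
    refine ⟨hIS 3, ?_, ?_, aa.symm, ?_⟩
    · rw [h3]
      simp
    · rw [h3]
      exact T6H_n R a' b' c' a Ra naa nab' nac'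
    · rw [h3, T6H_s1 R a' b' c' a Ra' na'b' na'c', ← h4]
      exact hIS 4
  have sl4 : Slide G (S 3) c' c := by
    refine ⟨hIS 3, ?_, ?_, cc.symm, ?_⟩
    · rw [h3]
      simp
    · rw [h3]
      exact T6H_n R a' b' c' c Rc (Ne.symm na'c) (Ne.symm nb'c) ncc
    · rw [h3, T6H_s2 R c' a' b' c Rc' (Ne.symm na'c') (Ne.symm nb'c'), ← h2]
      exact hIS 2
  obtain ⟨y, hay, hcy, hy⟩ : ∃ y, G.Adj a y ∧ G.Adj c y ∧ ∀ u ∈ S 0, G.Adj u y → u = a ∨ u = c := by
    rcases hCFL V G (S 0) a a' c c' hNT hNCi sl1 sl2 nac with h | h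
    · exact absurd h a'c'
    · exact h
  obtain ⟨x, hax, hcx, hx⟩ : ∃ x, G.Adj a' x ∧ G.Adj c' x ∧
      ∀ u ∈ S 3, G.Adj u x → u = a' ∨ u = c' := by
    rcases hCFL V G (S 3) a' a c' c hNT hNCi sl3 sl4 na'c' with h | h
    · exact absurd h ac
    · exact h
  have ya' : y ≠ a' := by
    intro h
    rw [h] at hcy
    exact a'c hcy.symm
  have yb' : y ≠ b' := by
    intro h
    rw [h] at hay
    exact ab' hay
  have yc' : y ≠ c' := by
    intro h
    rw [h] at hay
    exact ac' hay
  have yb : y ≠ b := by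
    intro h
    rw [h] at hay
    exact ab hay
  have yR : y ∉ R := fun h => aR y h hay
  have xa : x ≠ a := by
    intro h
    rw [h] at hcx
    exact ac' hcx.symm
  have xb : x ≠ b := by
    intro h
    rw [h] at hax
    exact a'b hax
  have xc : x ≠ c := by
    intro h
    rw [h] at hax
    exact a'c hax
  have xb' : x ≠ b' := by
    intro h
    rw [h] at hax
    exact a'b' hax
  have xR : x ∉ R := fun h => a'R x h hax
  have hb'y : G.Adj b' y := by
    have hyS : y ∉ R ∪ {a', b', c'} := by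
      simp only [Finset.mem_union, Finset.mem_insert, Finset.mem_singleton, not_or]
      exact ⟨yR, ya', yb', yc'⟩
    obtain ⟨u, hu, huy⟩ := i3.2 y hyS
    simp only [Finset.mem_union, Finset.mem_insert, Finset.mem_singleton] at hu
    rcases hu with h | h | h | h
    · have hu0 : u ∈ S 0 := by
        rw [h0]
        simp [h]
      rcases hy u hu0 huy with h' | h'
      · rw [h'] at h
        exact absurd h Ra
      · rw [h'] at h
        exact absurd h Rc
    · rw [h] at huy
      exact absurd hay (fun h' => hNT a a' y aa huy h')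
    · rw [h] at huy
      exact huy
    · rw [h] at huy
      exact absurd hcy (fun h' => hNT c c' y cc huy h')
  have hbx : G.Adj b x := by
    have hxS : x ∉ R ∪ {a, b, c} := by
      simp only [Finset.mem_union, Finset.mem_insert, Finset.mem_singleton, not_or]
      exact ⟨xR, xa, xb, xc⟩
    obtain ⟨u, hu, hux⟩ := i0.2 x hxS
    simp only [Finset.mem_union, Finset.mem_insert, Finset.mem_singleton] at hu
    rcases hu with h | h | h | h
    · have hu0 : u ∈ S 3 := by
        rw [h3]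
        simp [h]
      rcases hx u hu0 hux with h' | h'
      · rw [h'] at h
        exact absurd h Ra'
      · rw [h'] at h
        exact absurd h Rc'
    · rw [h] at hux
      exact absurd hux (fun h' => hNT a a' x aa hax h')
    · rw [h] at hux
      exact hux
    · rw [h] at hux
      exact absurd hux (fun h' => hNT c c' x cc hcx h')
  have xy : x ≠ y := by
    intro h
    rw [← h] at hay
    exact hNT a a' x aa hax hay
  refine ⟨x, y, a', a, b, b', c', c, ?_, ?_, nbc', hax.symm, aa.symm, hay, hbx.symm, bb, hb'y,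
    hcx.symm, cc.symm, hcy⟩
  · simp only [List.nodup_cons, List.mem_cons, List.not_mem_nil, or_false, not_or,
      not_false_eq_true, List.nodup_nil, and_true]
    exact ⟨⟨hax.ne', xa, xy, xb', xb⟩, ⟨Ne.symm naa, Ne.symm ya', na'b', na'b⟩,
      ⟨hay.ne, nab', nab⟩, ⟨yb', yb⟩, Ne.symm nbb⟩
  · simp only [List.nodup_cons, List.mem_cons, List.not_mem_nil, or_false, not_or,
      not_false_eq_true, List.nodup_nil, and_true]
    exact ⟨⟨hax.ne', xa, xy, xc, hcx.ne'⟩, ⟨Ne.symm naa, Ne.symm ya', na'c, na'c'⟩,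
      ⟨hay.ne, nac, nac'⟩, ⟨hcy.ne', yc'⟩, ncc⟩

end Pool.Agent.helper91.SI
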